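import Mathlib
import Pool.Agent.Helper157.OddCover

namespace Pool.Agent.Results.MP_cb2837_co.Asymptotic

open Filter Topology Pool.Agent.Helper157.OddCover

/-- The least size `gTilde n` of an odd cover of `E(K_n) × E(K_n)` by products of complete
bipartite graphs satisfies `gTilde n = (1/4 + o(1)) n^2`. -/
theorem result :
    Tendsto (fun n : ℕ => (gTilde n : ℝ) / (n : ℝ) ^ 2) atTop (𝓝 (1 / 4)) := by
  have hlow : ∀ n : ℕ, ((n : ℝ) - 1) ^ 2 ≤ 4 * (gTilde n : ℝ) ∨ n = 0 := by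
    intro n
    rcases Nat.eq_zero_or_pos n with h0 | hpos
    · exact Or.inr h0
    left
    have h1 : (n - 1) ^ 2 ≤ 4 * gTilde n := by
      rcases Nat.even_or_odd n with h | h
      · exact (Nat.pow_le_pow_left (Nat.sub_le n 1) 2).trans (sq_le_of_even h)
      · exact sq_le_of_odd h
    have h2 : (((n - 1) ^ 2 : ℕ) : ℝ) ≤ ((4 * gTilde n : ℕ) : ℝ) := by exact_mod_cast h1
    rw [Nat.cast_pow, Nat.cast_sub hpos] at h2
    push_cast at h2
    exact h2
  have hup : ∀ n : ℕ, 4 * (gTilde n : ℝ) ≤ ((n : ℝ) + 7) ^ 2 := by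
    intro n
    have h1 : gTilde n ≤ 16 * ((n + 7) / 8) ^ 2 := gTilde_le (by omega)
    have h2 : (8 * ((n + 7) / 8)) ^ 2 ≤ (n + 7) ^ 2 :=
      Nat.pow_le_pow_left (Nat.mul_div_le (n + 7) 8) 2
    have h3 : 4 * gTilde n ≤ (n + 7) ^ 2 := by
      calc 4 * gTilde n ≤ 4 * (16 * ((n + 7) / 8) ^ 2) := Nat.mul_le_mul_left 4 h1
        _ = (8 * ((n + 7) / 8)) ^ 2 := by ring
        _ ≤ _ := h2
    exact_mod_cast h3
  have hinv : Tendsto (fun n : ℕ => (1 : ℝ) / (n : ℝ)) atTop (𝓝 0) :=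
    tendsto_one_div_atTop_nhds_zero_nat
  have hL : Tendsto (fun n : ℕ => (1 / 4 : ℝ) * (1 - 1 / (n : ℝ)) ^ 2) atTop (𝓝 (1 / 4)) := by
    have := ((tendsto_const_nhds (x := (1 : ℝ))).sub hinv).pow 2
    have := this.const_mul (1 / 4 : ℝ)
    simpa using this
  have hU : Tendsto (fun n : ℕ => (1 / 4 : ℝ) * (1 + 7 * (1 / (n : ℝ))) ^ 2) atTop
      (𝓝 (1 / 4)) := by
    have := ((tendsto_const_nhds (x := (1 : ℝ))).add (hinv.const_mul 7)).pow 2
    have := this.const_mul (1 / 4 : ℝ)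
    simpa using this
  refine tendsto_of_tendsto_of_tendsto_of_le_of_le' hL hU ?_ ?_
  · filter_upwards [eventually_gt_atTop 0] with n hn
    have hn' : (0 : ℝ) < n := by exact_mod_cast hn
    have h := (hlow n).resolve_right (by omega)
    rw [le_div_iff₀ (by positivity)]
    have : (1 / 4 : ℝ) * (1 - 1 / (n : ℝ)) ^ 2 * (n : ℝ) ^ 2 = ((n : ℝ) - 1) ^ 2 / 4 := by
      field_simp
    rw [this]
    linarith
  · filter_upwards [eventually_gt_atTop 0] with n hn
    have hn' : (0 : ℝ) < n := by exact_mod_cast hn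
    have h := hup n
    rw [div_le_iff₀ (by positivity)]
    have : (1 / 4 : ℝ) * (1 + 7 * (1 / (n : ℝ))) ^ 2 * (n : ℝ) ^ 2 = ((n : ℝ) + 7) ^ 2 / 4 := by
      field_simp
    rw [this]
    linarith

end Pool.Agent.Results.MP_cb2837_co.Asymptotic
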