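import Mathlib
import Pool.Agent.Helper157.OddCover

namespace Pool.Agent.Results.MP_cb2837_co.ExactEight

open Pool.Agent.Helper157.OddCover

/-- For every positive `n` divisible by `8`, the least size of an odd cover of
`E(K_n) × E(K_n)` by products of complete bipartite graphs is exactly `n^2 / 4`. -/
theorem result (n : ℕ) (_hn : 0 < n) (h8 : 8 ∣ n) : gTilde n = n ^ 2 / 4 := by
  obtain ⟨k, rfl⟩ := h8
  have h1 : gTilde (8 * k) ≤ 16 * k ^ 2 := gTilde_le le_rfl
  have h2 : (8 * k) ^ 2 ≤ 4 * gTilde (8 * k) := sq_le_of_even ⟨4 * k, by ring⟩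
  have h3 : (8 * k) ^ 2 = 4 * (16 * k ^ 2) := by ring
  have h4 : (8 * k) ^ 2 / 4 = 16 * k ^ 2 := by
    rw [h3]; exact Nat.mul_div_cancel_left _ (by norm_num)
  rw [h4]
  omega

end Pool.Agent.Results.MP_cb2837_co.ExactEight
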